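import Pool.Agent.Helper89.HY.St
import Pool.Agent.Helper28.SP.M_DIM
import Pool.Agent.Helper28.SP.M_EIG
import Pool.Agent.Helper28.SP.M_GEN
import Pool.Agent.Helper28.SP.M_KER
import Pool.Agent.Helper28.SP.M_LA
import Pool.Agent.Helper28.SP.M_LAM
import Pool.Agent.Helper28.SP.M_LEVEL
import Pool.Agent.Helper28.SP.M_PROD
import Pool.Agent.Helper28.SP.M_SURJ
import Pool.Agent.Helper28.SP.M_SYM
import Pool.Agent.Helper28.SP.M_TJ
import Pool.Agent.Helper28.SP.M_CARD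
import Pool.Agent.Helper28.SP.M_CHAR
import Pool.Agent.Helper28.SP.M_TR
import Pool.Agent.Helper28.SP.M_Q
import Pool.Agent.Helper28.SP.M_NPW

/-! # HY (MP_e188f1_nt): module HM -/

set_option autoImplicit false

namespace Pool.Agent.Helper56.HY

open Finset Matrix
open Pool.Agent.Helper28.SP
open Pool.Agent.Helper56.SW (τ Γ N stSqrt)
open Pool.Agent.Helper89.HY (StHM)

private theorem level : StLEVEL := by
  have hS : StSURJ := SURJ.thm
  have hK : StKER := KER.thm hS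
  have hG : StGEN := GEN.thm hK hS
  have hP : StPROD := PROD.thm hK hS
  have hL : StLAM := LAM.thm
  have hCHAR : StCHAR := CHAR.thm hG hK hS
  have hTR : StTR := TR.thm hL hK hS
  have hQ : StQ := Q.thm hL hK hP hS
  have hD : StDIM := DIM.thm hCHAR
  have hTJ : StTJ := TJ.thm LA.thm EIG.thm LAM.thm hD hTR hQ
  exact LEVEL.thm hTJ CARD.thm

private theorem scal (h6 : StSURJ) (c : ℕ) (hc : 1 ≤ c) : ∃ sc : ℕ → SZ,
    ∀ x ∈ Γ c, ((red c (sc x) : SG c) : Matrix (Fin 2) (Fin 2) (ZMod c)) =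
      ((x : ℕ) : ZMod c) • 1 := by
  have h : ∀ x : ℕ, ∃ g : SZ, x ∈ Γ c →
      ((red c g : SG c) : Matrix (Fin 2) (Fin 2) (ZMod c)) = ((x : ℕ) : ZMod c) • 1 := by
    intro x
    by_cases hx : x ∈ Γ c
    · have h1 : ((x : ℕ) : ZMod c) ^ 2 = 1 := by
        have h2 : (c : ℤ) ∣ (x : ℤ) ^ 2 - 1 := (mem_filter.1 hx).2
        have h3 : (((x : ℤ) ^ 2 - 1 : ℤ) : ZMod c) = 0 := (ZMod.intCast_zmod_eq_zero_iff_dvd _ _).2 h2
        push_cast at h3
        exact sub_eq_zero.1 h3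
      have hd : (((x : ℕ) : ZMod c) • (1 : Matrix (Fin 2) (Fin 2) (ZMod c))).det = 1 := by
        rw [Matrix.det_smul, Matrix.det_one, mul_one, Fintype.card_fin, h1]
      obtain ⟨g, hg⟩ := h6 c hc ⟨_, hd⟩
      exact ⟨g, fun _ => by rw [hg]⟩
    · exact ⟨1, fun h => absurd h hx⟩
  choose sc hsc using h
  exact ⟨sc, hsc⟩

private theorem cnt_le {G ι : Type} [Group G] (s : Finset ι) (u : ι → G) (j : ℕ) :
    ∀ g : G, cnt s u j g ≤ s.card ^ j := by
  induction j with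
  | zero =>
    intro g
    unfold cnt
    split_ifs <;> simp
  | succ n ih =>
    intro g
    unfold cnt
    calc ∑ i ∈ s, cnt s u n ((u i)⁻¹ * g) ≤ ∑ i ∈ s, s.card ^ n := sum_le_sum fun i _ => ih _
      _ = s.card ^ (n + 1) := by rw [sum_const, smul_eq_mul, pow_succ, mul_comm]

private theorem card_sP (A B : ℕ) : (sP A B).card = ((2 * A + 1) * (2 * B + 1)) ^ 2 := by
  unfold sP
  rw [card_product, card_product, card_range, card_range]
  ring

theorem hHM : StHM := by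
  intro r hr
  refine ⟨4 * 16 ^ (r + 1) * 36 ^ r, by positivity, ?_⟩
  intro p a b A B D t hp ha hb hA hAB hD ht hN
  have hp1 : 1 ≤ p := hp.one_lt.le
  have hp0 : (0 : ℝ) < p := by exact_mod_cast hp.pos
  have hA0 : (1 : ℝ) ≤ A := by exact_mod_cast hA
  have hB0 : (1 : ℝ) ≤ B := hA0.trans (by exact_mod_cast hAB)
  obtain ⟨sc, hsc⟩ := scal SURJ.thm p hp1
  obtain ⟨-, hsym, hpos⟩ := SYM.thm a b A B
  set P : ℝ := (2 * (A : ℝ) + 1) * (2 * B + 1) with hP
  have hP0 : 0 < P := by rw [hP]; positivity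
  have hABP : (A : ℝ) * B ≤ P := by rw [hP]; nlinarith
  have hlev := level 3 r _ (sP A B) (wP a b) hsym (by omega) hr (Or.inr hpos) p (P ^ 2)
    D t hp1 (by positivity) (by positivity) ht (by
      intro e he
      rw [hp.divisors] at he
      simp only [mem_insert, mem_singleton] at he
      rcases he with rfl | rfl
      · have h1 : (W (sP A B) (wP a b) 1 3 1 : ℝ) ≤ (P ^ 2) ^ 3 := by
          have h2 : W (sP A B) (wP a b) 1 3 1 ≤ (sP A B).card ^ 3 := cnt_le _ _ _ _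
          rw [card_sP] at h2
          have h3 : (W (sP A B) (wP a b) 1 3 1 : ℝ) ≤
              (((((2 * A + 1) * (2 * B + 1)) ^ 2) ^ 3 : ℕ) : ℝ) := by exact_mod_cast h2
          rw [hP]
          push_cast at h3
          exact h3
        have h4 : (P ^ 2) ^ 3 ≤ D * (P ^ 2) ^ 3 := le_mul_of_one_le_left (by positivity) hD
        have h5 : D * (P ^ 2) ^ 3 * 1 ≤ D * (P ^ 2) ^ 3 * (1 + t) :=
          mul_le_mul_of_nonneg_left (by linarith) (by positivity)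
        norm_num
        linarith
      · have h1 := NPW.thm' e a b 3 A B hp1 (by norm_num)
        rw [← hP] at h1
        have h2 : (W (sP A B) (wP a b) e 3 1 : ℝ) ≤
            P ^ 3 * (D * (((A : ℝ) * B) ^ 3 / (e : ℝ) ^ 3 * (1 + e * t))) :=
          h1.trans (mul_le_mul_of_nonneg_left hN (by positivity))
        have h3 : ((A : ℝ) * B) ^ 3 ≤ P ^ 3 := pow_le_pow_left₀ (by positivity) hABP 3
        calc (W (sP A B) (wP a b) e 3 1 : ℝ) * (e : ℝ) ^ 2
            ≤ P ^ 3 * (D * (((A : ℝ) * B) ^ 3 / (e : ℝ) ^ 3 * (1 + e * t))) * (e : ℝ) ^ 2 :=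
              mul_le_mul_of_nonneg_right h2 (by positivity)
          _ ≤ P ^ 3 * (D * (P ^ 3 / (e : ℝ) ^ 3 * (1 + e * t))) * (e : ℝ) ^ 2 := by gcongr
          _ = D * (P ^ 2) ^ 3 * (1 / (e : ℝ) + t) := by
              field_simp)
  have hnp := NPW.thm p a b r A B sc hp1 (by omega) hsc
  have htau : τ p = 2 := by
    unfold τ
    rw [hp.divisors, card_pair (by
      intro h
      exact hp.one_lt.ne h)]
    norm_num
  have hG : ((Γ p).card : ℝ) ≤ 2 * τ p := stSqrt p hp1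
  rw [htau] at hG hlev
  push_cast at hlev
  set X : ℝ := (4 * (2 : ℝ) ^ 2) ^ (r + 1) * D ^ ((r : ℝ) / 3) * (P ^ 2) ^ r / (p : ℝ) ^ 3 *
        (1 + p * t ^ ((r : ℝ) / 3)) with hX
  have hX0 : 0 ≤ X := by rw [hX]; positivity
  have hsum : ∑ x ∈ Γ p, (W (sP A B) (wP a b) p r (sc x) : ℝ) ≤ 4 * X := by
    calc ∑ x ∈ Γ p, (W (sP A B) (wP a b) p r (sc x) : ℝ) ≤ ∑ x ∈ Γ p, X :=
          sum_le_sum fun x _ => hlev (sc x)
      _ = (Γ p).card * X := by rw [sum_const, nsmul_eq_mul]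
      _ ≤ 4 * X := by
          apply mul_le_mul_of_nonneg_right _ hX0
          linarith
  have hNN := hnp.trans hsum
  set Q : ℝ := ((A : ℝ) + 1) * ((B : ℝ) + 1) with hQ
  have hQ0 : 0 < Q := by rw [hQ]; positivity
  have hPQ : P ^ 2 ≤ 36 * ((A : ℝ) * B) * Q := by
    have e1 : (2 * (A : ℝ) + 1) ^ 2 ≤ 6 * A * (A + 1) := by nlinarith
    have e2 : (2 * (B : ℝ) + 1) ^ 2 ≤ 6 * B * (B + 1) := by nlinarith
    calc P ^ 2 = (2 * (A : ℝ) + 1) ^ 2 * (2 * (B : ℝ) + 1) ^ 2 := by rw [hP]; ring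
      _ ≤ (6 * (A : ℝ) * (A + 1)) * (6 * (B : ℝ) * (B + 1)) := by gcongr
      _ = 36 * ((A : ℝ) * B) * Q := by rw [hQ]; ring
  have hDr : D ^ ((r : ℝ) / 3) ≤ D ^ r := by
    rw [← Real.rpow_natCast D r]
    apply Real.rpow_le_rpow_of_exponent_le hD
    have : (0 : ℝ) ≤ r := by positivity
    linarith
  have key : 4 * X ≤ (4 * 16 ^ (r + 1) * 36 ^ r) * D ^ r *
      (((A : ℝ) * B) ^ r / (p : ℝ) ^ 3 * (1 + p * t ^ ((r : ℝ) / 3))) * Q ^ r := by
    have hPr : (P ^ 2) ^ r ≤ (36 * ((A : ℝ) * B) * Q) ^ r :=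
      pow_le_pow_left₀ (by positivity) hPQ r
    have hpos2 : 0 ≤ 1 + p * t ^ ((r : ℝ) / 3) := by positivity
    calc 4 * X ≤ 4 * ((4 * (2 : ℝ) ^ 2) ^ (r + 1) * D ^ r * (36 * ((A : ℝ) * B) * Q) ^ r /
          (p : ℝ) ^ 3 * (1 + p * t ^ ((r : ℝ) / 3))) := by
          rw [hX]
          gcongr
      _ = _ := by
          rw [mul_pow _ Q, mul_pow (36 : ℝ), show (4 : ℝ) * 2 ^ 2 = 16 by norm_num]
          ring
  have hfinal := hNN.trans key
  exact le_of_mul_le_mul_right hfinal (by positivity)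

end Pool.Agent.Helper56.HY
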